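import Pool.Agent.Helper7.Proj.Packets

/-!
# Packet C1: calculus identities for `phi`, `psi`, `Bf`
-/

namespace Pool.Agent.Helper18.Proj

open MeasureTheory Set Filter Topology Pool.Agent.Helper7.Proj

/-- `∫ sin (t x) x^s exp (-x^q)` over `(0, ∞)`. -/
noncomputable def Si (q s t : ℝ) : ℝ :=
  ∫ x in Ioi (0 : ℝ), Real.sin (t * x) * (x ^ s * Real.exp (-x ^ q))

/-- `∫ cos (t x) x^s exp (-x^q)` over `(0, ∞)`. -/
noncomputable def Co (q s t : ℝ) : ℝ :=
  ∫ x in Ioi (0 : ℝ), Real.cos (t * x) * (x ^ s * Real.exp (-x ^ q))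

lemma integrable_mul_bdd {f g : ℝ → ℝ} (hf : IntegrableOn f (Ioi 0)) (hg : Continuous g)
    (hb : ∀ x, |g x| ≤ 1) : IntegrableOn (fun x => g x * f x) (Ioi 0) := by
  refine Integrable.bdd_mul (c := 1) hf hg.aestronglyMeasurable ?_
  exact Filter.Eventually.of_forall fun x => by simpa using hb x

lemma hasDerivAt_sinInt {f : ℝ → ℝ} (hf : IntegrableOn f (Ioi 0))
    (hxf : IntegrableOn (fun x => x * f x) (Ioi 0)) (t : ℝ) :
    HasDerivAt (fun t => ∫ x in Ioi (0 : ℝ), Real.sin (t * x) * f x)
      (∫ x in Ioi (0 : ℝ), Real.cos (t * x) * (x * f x)) t := by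
  have h := hasDerivAt_integral_of_dominated_loc_of_deriv_le
    (μ := volume.restrict (Ioi (0 : ℝ))) (x₀ := t) (s := univ)
    (F := fun t x => Real.sin (t * x) * f x)
    (F' := fun t x => Real.cos (t * x) * (x * f x))
    (bound := fun x => |x * f x|) Filter.univ_mem ?_ ?_ ?_ ?_ ?_ ?_
  · exact h.2
  · refine Filter.Eventually.of_forall fun s => ?_
    exact ((Real.continuous_sin.comp (continuous_const.mul continuous_id)).aestronglyMeasurable).mul
      hf.aestronglyMeasurable
  · exact integrable_mul_bdd hf (by fun_prop) fun x => Real.abs_sin_le_one _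
  · exact ((Real.continuous_cos.comp (continuous_const.mul continuous_id)).aestronglyMeasurable).mul
      hxf.aestronglyMeasurable
  · refine Filter.Eventually.of_forall fun x s _ => ?_
    rw [Real.norm_eq_abs, abs_mul]
    calc |Real.cos (s * x)| * |x * f x| ≤ 1 * |x * f x| := by
          gcongr
          exact Real.abs_cos_le_one _
      _ = |x * f x| := one_mul _
  · exact hxf.abs
  · refine Filter.Eventually.of_forall fun x s _ => ?_
    have h1 : HasDerivAt (fun s : ℝ => s * x) x s := by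
      simpa using (hasDerivAt_id s).mul_const x
    have h2 := (h1.sin).mul_const (f x)
    exact h2.congr_deriv (by ring)

lemma hasDerivAt_cosInt {f : ℝ → ℝ} (hf : IntegrableOn f (Ioi 0))
    (hxf : IntegrableOn (fun x => x * f x) (Ioi 0)) (t : ℝ) :
    HasDerivAt (fun t => ∫ x in Ioi (0 : ℝ), Real.cos (t * x) * f x)
      (-∫ x in Ioi (0 : ℝ), Real.sin (t * x) * (x * f x)) t := by
  have h := hasDerivAt_integral_of_dominated_loc_of_deriv_le
    (μ := volume.restrict (Ioi (0 : ℝ))) (x₀ := t) (s := univ)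
    (F := fun t x => Real.cos (t * x) * f x)
    (F' := fun t x => -(Real.sin (t * x) * (x * f x)))
    (bound := fun x => |x * f x|) Filter.univ_mem ?_ ?_ ?_ ?_ ?_ ?_
  · rw [← integral_neg]
    exact h.2
  · refine Filter.Eventually.of_forall fun s => ?_
    exact ((Real.continuous_cos.comp (continuous_const.mul continuous_id)).aestronglyMeasurable).mul
      hf.aestronglyMeasurable
  · exact integrable_mul_bdd hf (by fun_prop) fun x => Real.abs_cos_le_one _
  · exact (((Real.continuous_sin.comp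
      (continuous_const.mul continuous_id)).aestronglyMeasurable).mul hxf.aestronglyMeasurable).neg
  · refine Filter.Eventually.of_forall fun x s _ => ?_
    rw [Real.norm_eq_abs, abs_neg, abs_mul]
    calc |Real.sin (s * x)| * |x * f x| ≤ 1 * |x * f x| := by
          gcongr
          exact Real.abs_sin_le_one _
      _ = |x * f x| := one_mul _
  · exact hxf.abs
  · refine Filter.Eventually.of_forall fun x s _ => ?_
    have h1 : HasDerivAt (fun s : ℝ => s * x) x s := by
      simpa using (hasDerivAt_id s).mul_const x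
    have h2 := (h1.cos).mul_const (f x)
    exact h2.congr_deriv (by ring)

section

variable {q : ℝ}

lemma intP (hq : 1 ≤ q) {s : ℝ} (hs : -1 < s) :
    IntegrableOn (fun x : ℝ => x ^ s * Real.exp (-x ^ q)) (Ioi 0) :=
  integrableOn_rpow_mul_exp_neg_rpow hs (by linarith)

lemma intS (hq : 1 ≤ q) {s : ℝ} (hs : -1 < s) (t : ℝ) :
    IntegrableOn (fun x => Real.sin (t * x) * (x ^ s * Real.exp (-x ^ q))) (Ioi 0) :=
  integrable_mul_bdd (intP hq hs) (by fun_prop)
    fun x => Real.abs_sin_le_one _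

lemma intC (hq : 1 ≤ q) {s : ℝ} (hs : -1 < s) (t : ℝ) :
    IntegrableOn (fun x => Real.cos (t * x) * (x ^ s * Real.exp (-x ^ q))) (Ioi 0) :=
  integrable_mul_bdd (intP hq hs) (by fun_prop)
    fun x => Real.abs_cos_le_one _

/-- integration by parts -/
lemma parts (hq : 1 ≤ q) {s : ℝ} (hs : 0 ≤ s) (hs' : s = 0 ∨ 0 < s) (t : ℝ) :
    t * Co q s t = q * Si q (s + (q - 1)) t - s * Si q (s - 1) t := by
  have hlim : Tendsto (fun x : ℝ => Real.sin (t * x) * (x ^ s * Real.exp (-x ^ q))) atTop
      (𝓝 0) := by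
    have h1 := tendsto_rpow_mul_exp_neg_mul_atTop_nhds_zero s 1 one_pos
    refine squeeze_zero_norm' ?_ h1
    filter_upwards [eventually_ge_atTop (1 : ℝ)] with x hx
    have hx0 : 0 < x := by linarith
    rw [Real.norm_eq_abs, abs_mul, abs_mul, abs_of_nonneg (Real.rpow_nonneg hx0.le s),
      Real.abs_exp]
    have h2 : x ≤ x ^ q := by
      calc x = x ^ (1 : ℝ) := (Real.rpow_one x).symm
        _ ≤ x ^ q := Real.rpow_le_rpow_of_exponent_le hx hq
    calc |Real.sin (t * x)| * (x ^ s * Real.exp (-x ^ q))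
        ≤ 1 * (x ^ s * Real.exp (-1 * x)) := by
          gcongr
          · exact Real.abs_sin_le_one _
          · linarith
      _ = x ^ s * Real.exp (-1 * x) := one_mul _
  have hcont : ContinuousWithinAt (fun x : ℝ => Real.sin (t * x) * (x ^ s * Real.exp (-x ^ q)))
      (Ici 0) 0 := by
    apply ContinuousAt.continuousWithinAt
    have h1 : ContinuousAt (fun x : ℝ => x ^ s) 0 := Real.continuousAt_rpow_const 0 s (Or.inr hs)
    have h2 : ContinuousAt (fun x : ℝ => x ^ q) 0 :=
      Real.continuousAt_rpow_const 0 q (Or.inr (by linarith))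
    have h3 : ContinuousAt (fun x : ℝ => Real.sin (t * x)) 0 := by fun_prop
    exact h3.mul (h1.mul h2.neg.rexp)
  have hderiv : ∀ x ∈ Ioi (0 : ℝ), HasDerivAt
      (fun x : ℝ => Real.sin (t * x) * (x ^ s * Real.exp (-x ^ q)))
      (t * (Real.cos (t * x) * (x ^ s * Real.exp (-x ^ q)))
        + s * (Real.sin (t * x) * (x ^ (s - 1) * Real.exp (-x ^ q)))
        - q * (Real.sin (t * x) * (x ^ (s + (q - 1)) * Real.exp (-x ^ q)))) x := by
    intro x hx
    have hx0 : (0 : ℝ) < x := hx
    have h1 : HasDerivAt (fun x : ℝ => t * x) t x := by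
      simpa using (hasDerivAt_id x).const_mul t
    have h2 : HasDerivAt (fun x : ℝ => x ^ s) (s * x ^ (s - 1)) x :=
      Real.hasDerivAt_rpow_const (Or.inl hx0.ne')
    have h3 : HasDerivAt (fun x : ℝ => x ^ q) (q * x ^ (q - 1)) x :=
      Real.hasDerivAt_rpow_const (Or.inl hx0.ne')
    have h3' : HasDerivAt (fun x : ℝ => Real.exp (-x ^ q))
        (Real.exp (-x ^ q) * -(q * x ^ (q - 1))) x := h3.neg.exp
    have h23 : HasDerivAt (fun x : ℝ => x ^ s * Real.exp (-x ^ q))
        (s * x ^ (s - 1) * Real.exp (-x ^ q) + x ^ s * (Real.exp (-x ^ q) * -(q * x ^ (q - 1))))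
        x := h2.mul h3'
    have h4 : HasDerivAt (fun x : ℝ => Real.sin (t * x) * (x ^ s * Real.exp (-x ^ q)))
        (Real.cos (t * x) * t * (x ^ s * Real.exp (-x ^ q)) + Real.sin (t * x) *
          (s * x ^ (s - 1) * Real.exp (-x ^ q) +
            x ^ s * (Real.exp (-x ^ q) * -(q * x ^ (q - 1))))) x := (h1.sin).mul h23
    refine h4.congr_deriv ?_
    rw [Real.rpow_add hx0]
    ring
  have hint : IntegrableOn (fun x : ℝ =>
      t * (Real.cos (t * x) * (x ^ s * Real.exp (-x ^ q)))
        + s * (Real.sin (t * x) * (x ^ (s - 1) * Real.exp (-x ^ q)))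
        - q * (Real.sin (t * x) * (x ^ (s + (q - 1)) * Real.exp (-x ^ q)))) (Ioi 0) := by
    refine Integrable.sub (Integrable.add ?_ ?_) ?_
    · exact (intC hq (by linarith) t).const_mul t
    · rcases hs' with h0 | h0
      · simp [h0]
      · exact (intS hq (by linarith) t).const_mul s
    · exact (intS hq (by linarith) t).const_mul q
  have hI := integral_Ioi_of_hasDerivAt_of_tendsto hcont hderiv hint hlim
  have hz : (0 : ℝ) - Real.sin (t * 0) * ((0 : ℝ) ^ s * Real.exp (-(0 : ℝ) ^ q)) = 0 := by simp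
  rw [hz] at hI
  have hA : IntegrableOn (fun x : ℝ => t * (Real.cos (t * x) * (x ^ s * Real.exp (-x ^ q))))
      (Ioi 0) := (intC hq (by linarith) t).const_mul t
  have hB : IntegrableOn (fun x : ℝ => s * (Real.sin (t * x) * (x ^ (s - 1) * Real.exp (-x ^ q))))
      (Ioi 0) := by
    rcases hs' with h0 | h0
    · simp [h0]
    · exact (intS hq (by linarith) t).const_mul s
  have hC : IntegrableOn
      (fun x : ℝ => q * (Real.sin (t * x) * (x ^ (s + (q - 1)) * Real.exp (-x ^ q))))
      (Ioi 0) := (intS hq (by linarith) t).const_mul q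
  have hAB : IntegrableOn (fun x : ℝ => t * (Real.cos (t * x) * (x ^ s * Real.exp (-x ^ q))) +
      s * (Real.sin (t * x) * (x ^ (s - 1) * Real.exp (-x ^ q)))) (Ioi 0) := hA.add hB
  rw [integral_sub hAB hC, integral_add hA hB, integral_const_mul, integral_const_mul,
    integral_const_mul] at hI
  unfold Co Si
  linarith

lemma Zo_pos (hq : 0 < q) : 0 < Zo q := by
  have h := integral_rpow_mul_exp_neg_rpow hq (show (-1 : ℝ) < 0 by norm_num)
  simp only [Real.rpow_zero, one_mul] at h
  unfold Zo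
  rw [h]
  have := Real.Gamma_pos_of_pos (show (0 : ℝ) < (0 + 1) / q by positivity)
  positivity

lemma Zd_pos (hq : 1 < q) : 0 < Zd q := by
  have hq0 : 0 < q := by linarith
  have h := integral_rpow_mul_exp_neg_rpow hq0 (show (-1 : ℝ) < q - 2 by linarith)
  unfold Zd
  rw [h]
  have := Real.Gamma_pos_of_pos (show (0 : ℝ) < (q - 2 + 1) / q from div_pos (by linarith) hq0)
  positivity

lemma mul_rpow_int (q s : ℝ) : EqOn (fun x : ℝ => x * (x ^ s * Real.exp (-x ^ q)))
    (fun x : ℝ => x ^ (s + 1) * Real.exp (-x ^ q)) (Ioi 0) := by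
  intro x hx
  have hx0 : (0 : ℝ) < x := hx
  simp only
  rw [Real.rpow_add hx0, Real.rpow_one]
  ring

lemma hasDerivAt_Co (hq : 1 ≤ q) {s : ℝ} (hs : -1 < s) (t : ℝ) :
    HasDerivAt (Co q s) (-Si q (s + 1) t) t := by
  have h := hasDerivAt_cosInt (f := fun x => x ^ s * Real.exp (-x ^ q))
    (intP hq hs)
    ((integrableOn_congr_fun (mul_rpow_int q s) measurableSet_Ioi).2
      (intP hq (by linarith))) t
  have e : ∫ x in Ioi (0 : ℝ), Real.sin (t * x) * (x * (x ^ s * Real.exp (-x ^ q))) =
      Si q (s + 1) t := by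
    unfold Si
    refine setIntegral_congr_fun measurableSet_Ioi fun x hx => ?_
    have := mul_rpow_int q s hx
    simp only at this ⊢
    rw [this]
  rw [e] at h
  exact h

/-- the function `beta` expanded in powers of `x` -/
lemma beta_eq (hq : 1 < q) : EqOn (beta q) (fun x : ℝ =>
    (Zo q * (q - 2) / (q * Zd q ^ 2)) * (x ^ (q - 3) * Real.exp (-x ^ q))
      - (1 / Zo q) * (x ^ (1 : ℝ) * Real.exp (-x ^ q))
      + (2 / Zd q) * (x ^ (q - 1) * Real.exp (-x ^ q))
      - (Zo q / Zd q ^ 2) * (x ^ (2 * q - 3) * Real.exp (-x ^ q))) (Ioi 0) := by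
  intro x hx
  have hx0 : (0 : ℝ) < x := hx
  have h0 := (Zo_pos (show (0 : ℝ) < q by linarith)).ne'
  have h1 := (Zd_pos hq).ne'
  have e1 : x ^ (q - 1) = x * x ^ (q - 2) := by
    rw [show q - 1 = 1 + (q - 2) by ring, Real.rpow_add hx0, Real.rpow_one]
  have e2 : x ^ (2 * q - 3) = x * x ^ (q - 2) * x ^ (q - 2) := by
    rw [show 2 * q - 3 = 1 + (q - 2) + (q - 2) by ring, Real.rpow_add hx0, Real.rpow_add hx0,
      Real.rpow_one]
  simp only [beta]
  rw [e1, e2, Real.rpow_one]
  field_simp
  ring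

end

/-- Packet C1. -/
theorem pktC1 : PktC1 := by
  intro q hq2 hq3
  have hq1 : 1 < q := by linarith
  have hq1' : 1 ≤ q := hq1.le
  have h0 := Zo_pos (show (0 : ℝ) < q by linarith)
  have h1 := Zd_pos hq1
  have hq0 : q ≠ 0 := by linarith
  have ePhi : phi q = fun t => Co q (q - 2) t / Zd q := rfl
  have ePsi : psi q = fun t => Co q 0 t / Zo q := by
    funext t
    unfold psi Co Zo
    simp
  have ebeta : IntegrableOn (beta q) (Ioi 0) := by
    refine (integrableOn_congr_fun (beta_eq hq1) measurableSet_Ioi).2 ?_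
    refine Integrable.sub (Integrable.add (Integrable.sub ?_ ?_) ?_) ?_
    · exact (intP hq1' (by linarith)).const_mul _
    · exact (intP hq1' (by linarith)).const_mul _
    · exact (intP hq1' (by linarith)).const_mul _
    · exact (intP hq1' (by linarith)).const_mul _
  have ebeta' : IntegrableOn (fun x => x * beta q x) (Ioi 0) := by
    have e : EqOn (fun x => x * beta q x) (fun x : ℝ =>
        (Zo q * (q - 2) / (q * Zd q ^ 2)) * (x ^ (q - 2) * Real.exp (-x ^ q))
        - (1 / Zo q) * (x ^ (2 : ℝ) * Real.exp (-x ^ q))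
        + (2 / Zd q) * (x ^ q * Real.exp (-x ^ q))
        - (Zo q / Zd q ^ 2) * (x ^ (2 * q - 2) * Real.exp (-x ^ q))) (Ioi 0) := by
      intro x hx
      have hx0 : (0 : ℝ) < x := hx
      simp only
      rw [beta_eq hq1 hx]
      simp only
      have e1 : x ^ (q - 2) = x ^ (q - 3) * x := by
        rw [show q - 2 = q - 3 + 1 by ring, Real.rpow_add hx0, Real.rpow_one]
      have e2 : x ^ (2 : ℝ) = x ^ (1 : ℝ) * x := by
        rw [show (2 : ℝ) = 1 + 1 by ring, Real.rpow_add hx0, Real.rpow_one]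
      have e3 : x ^ q = x ^ (q - 1) * x := by
        nth_rewrite 1 [show q = q - 1 + 1 by ring]
        rw [Real.rpow_add hx0, Real.rpow_one]
      have e4 : x ^ (2 * q - 2) = x ^ (2 * q - 3) * x := by
        rw [show 2 * q - 2 = 2 * q - 3 + 1 by ring, Real.rpow_add hx0, Real.rpow_one]
      generalize Real.exp (-x ^ q) = E
      rw [e1, e2, e3, e4]
      ring
    refine (integrableOn_congr_fun e measurableSet_Ioi).2 ?_
    refine Integrable.sub (Integrable.add (Integrable.sub ?_ ?_) ?_) ?_
    · exact (intP hq1' (by linarith)).const_mul _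
    · exact (intP hq1' (by linarith)).const_mul _
    · exact (intP hq1' (by linarith)).const_mul _
    · exact (intP hq1' (by linarith)).const_mul _
  refine ⟨fun t => ?_, fun t => ?_, fun t => ?_⟩
  · have hd := (hasDerivAt_Co hq1' (show (-1 : ℝ) < q - 2 by linarith) t).div_const (Zd q)
    have hp := parts hq1' le_rfl (Or.inl rfl) t
    rw [ePhi, ePsi]
    refine hd.congr_deriv ?_
    rw [show q - 2 + 1 = 0 + (q - 1) by ring]
    have hp' : t * Co q 0 t = q * Si q (0 + (q - 1)) t := by linarith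
    unfold kap
    field_simp
    linarith
  · have hd := (hasDerivAt_Co hq1' (show (-1 : ℝ) < 0 by norm_num) t).div_const (Zo q)
    have hp0 := parts hq1' le_rfl (Or.inl rfl) t
    have hp1 := parts hq1' (show 0 ≤ q - 2 by linarith) (Or.inr (by linarith)) t
    have hB : Bf q t = (Zo q * (q - 2) / (q * Zd q ^ 2)) * Si q (q - 3) t
        - (1 / Zo q) * Si q 1 t + (2 / Zd q) * Si q (q - 1) t
        - (Zo q / Zd q ^ 2) * Si q (2 * q - 3) t := by
      have i1 := (intS hq1' (show (-1 : ℝ) < q - 3 by linarith) t).const_mul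
        (Zo q * (q - 2) / (q * Zd q ^ 2))
      have i2 := (intS hq1' (show (-1 : ℝ) < 1 by norm_num) t).const_mul (1 / Zo q)
      have i3 := (intS hq1' (show (-1 : ℝ) < q - 1 by linarith) t).const_mul (2 / Zd q)
      have i4 := (intS hq1' (show (-1 : ℝ) < 2 * q - 3 by linarith) t).const_mul
        (Zo q / Zd q ^ 2)
      have e : ∫ x in Ioi (0 : ℝ), Real.sin (t * x) * beta q x = ∫ x in Ioi (0 : ℝ),
          (((Zo q * (q - 2) / (q * Zd q ^ 2)) *
            (Real.sin (t * x) * (x ^ (q - 3) * Real.exp (-x ^ q)))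
          - (1 / Zo q) * (Real.sin (t * x) * (x ^ (1 : ℝ) * Real.exp (-x ^ q)))
          + (2 / Zd q) * (Real.sin (t * x) * (x ^ (q - 1) * Real.exp (-x ^ q))))
          - (Zo q / Zd q ^ 2) * (Real.sin (t * x) * (x ^ (2 * q - 3) * Real.exp (-x ^ q)))) := by
        refine setIntegral_congr_fun measurableSet_Ioi fun x hx => ?_
        rw [beta_eq hq1 hx]
        ring
      have i12 : IntegrableOn (fun x : ℝ => (Zo q * (q - 2) / (q * Zd q ^ 2)) *
            (Real.sin (t * x) * (x ^ (q - 3) * Real.exp (-x ^ q)))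
          - (1 / Zo q) * (Real.sin (t * x) * (x ^ (1 : ℝ) * Real.exp (-x ^ q)))) (Ioi 0) :=
        i1.sub i2
      have i123 : IntegrableOn (fun x : ℝ => (Zo q * (q - 2) / (q * Zd q ^ 2)) *
            (Real.sin (t * x) * (x ^ (q - 3) * Real.exp (-x ^ q)))
          - (1 / Zo q) * (Real.sin (t * x) * (x ^ (1 : ℝ) * Real.exp (-x ^ q)))
          + (2 / Zd q) * (Real.sin (t * x) * (x ^ (q - 1) * Real.exp (-x ^ q)))) (Ioi 0) :=
        i12.add i3
      unfold Bf Si
      rw [e, integral_sub i123 i4, integral_add i12 i3, integral_sub i1 i2, integral_const_mul,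
        integral_const_mul, integral_const_mul, integral_const_mul]
    rw [show q - 2 + (q - 1) = 2 * q - 3 by ring, show q - 2 - 1 = q - 3 by ring] at hp1
    rw [show (0 : ℝ) + (q - 1) = q - 1 by ring] at hp0
    rw [show (0 : ℝ) + 1 = 1 by ring] at hd
    rw [ePsi, ePhi]
    refine hd.congr_deriv ?_
    simp only
    rw [hB]
    have hp0' : Co q 0 t * t = q * Si q (q - 1) t := by linarith
    have hp1' : Co q (q - 2) t * t = q * Si q (2 * q - 3) t - (q - 2) * Si q (q - 3) t := by
      linarith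
    have ea : 2 * kap q * t * (Co q 0 t / Zo q) = 2 / Zd q * Si q (q - 1) t := by
      unfold kap
      field_simp
      linarith
    have eb : kap q * t * (Co q (q - 2) t / Zd q) =
        Zo q / (q * Zd q ^ 2) * (q * Si q (2 * q - 3) t - (q - 2) * Si q (q - 3) t) := by
      rw [← hp1']
      unfold kap
      field_simp
    rw [ea, eb]
    field_simp
    ring
  · exact hasDerivAt_sinInt ebeta ebeta' t

end Pool.Agent.Helper18.Proj
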